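import Pool.Agent.H849.SG.Lin
import Pool.Agent.H849.LM.Main

/-!
# Lefschetz maps to the product of a surface and a variety of good reduction
-/

set_option autoImplicit false

namespace Pool.Agent.H849.SG

open Module TensorProduct Submodule Pool.Agent.Y143 Pool.Agent.H849.SEC Pool.Agent.H849.LM
open Pool.Agent.R942.WB Pool.Agent.R942.WM

universe u v

variable {Ω : Type u} [Field Ω] [CharZero Ω]

section Dual

variable {Γ : Type} {n q : ℕ}

/-- Injectivity in degree `-j` gives surjectivity in degree `j`, by duality. -/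
theorem nSurj_of_nInj (W : SpecialFibre.{u, v} Ω Γ n q) (i j : ℤ)
    (h : NInj W.diff W.tot i (-j)) : NSurj W.diff W.tot i j := by
  have hneg : ∀ i j, W.tot (-i) j = W.tot i j := by
    intro i j
    unfold SpecialFibre.tot
    have := W.E₁_neg i (n + j - i)
    rwa [show (n : ℤ) + j - i + 2 * i = n + j - -i by ring] at this
  have hd : ∀ i j x, x ∈ W.tot i j → W.diff i x ∈ W.tot (i + 1) (j + 1) := fun i j x hx =>
    W.mem_E₁_cast rfl (by ring) (W.diff_mem hx)
  have hadj := fun i j x y => W.lefDual.adj_d i j x y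
  set A := W.tot i j with hA
  set A' := W.tot (-i) (-j) with hA'
  have hP : Perf W.psi A A' := W.lefDual.perf i j
  -- both summands are contained in `A`
  have hU : Zc W.diff W.tot (-i) j ⊔ Bd W.diff W.tot i j ≤ A := by
    apply sup_le
    · intro x hx
      rw [hA, ← hneg]
      exact hx.1
    · rintro _ ⟨x, hx, rfl⟩
      have h1 := hd _ _ _ hx
      rw [show i - 1 + 1 = i by ring, show j - 1 + 1 = j by ring] at h1
      exact h1
  intro x hx
  rw [← hP.annR_annR hU]
  refine ⟨hx.1, fun y hy => ?_⟩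
  rw [annR_sup] at hy
  -- the annihilator of the coboundaries
  have e1 : annR W.psi (Bd W.diff W.tot i j) A' = Zc W.diff W.tot (-i) (-j) := by
    have hPm : Perf W.psi (W.tot (i - 1) (j - 1)) (W.tot (-(i - 1)) (-(j - 1))) :=
      W.lefDual.perf (i - 1) (j - 1)
    have h2 := annR_map (f := W.diff (i - 1)) (g := W.diff (-i)) (B' := A') hPm (by
      intro y hy
      have h3 := hd _ _ _ hy
      rwa [show -(i - 1) = -i + 1 by ring, show -(j - 1) = -j + 1 by ring]) (by
      intro x hx y hy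
      have h3 := hadj (i - 1) (j - 1) x y hx (by
        rw [show -(i - 1) - 1 = -i by ring, show -(j - 1) - 1 = -j by ring]
        exact hy)
      rwa [show -(i - 1) - 1 = -i by ring] at h3)
    exact h2
  have e2 : annR W.psi (Zc W.diff W.tot (-i) j) A' = Bd W.diff W.tot i (-j) := by
    have hPm : Perf W.psi (W.tot (-i) j) A' := by
      have h3 := W.lefDual.perf (-i) j
      rwa [neg_neg, ← hneg i (-j)] at h3
    have hPm' : Perf W.psi (W.tot (-i + 1) (j + 1)) (W.tot (i - 1) (-j - 1)) := by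
      have h3 := W.lefDual.perf (-i + 1) (j + 1)
      rwa [show -(-i + 1) = i - 1 by ring, show -(j + 1) = -j - 1 by ring] at h3
    have h2 := annR_ker (f := W.diff (-i)) (g := W.diff (i - 1)) hPm hPm'
      (fun x hx => hd _ _ _ hx) (by
      intro y hy
      have h3 := hd _ _ _ hy
      rw [show i - 1 + 1 = i by ring, show -j - 1 + 1 = -j by ring, ← hneg] at h3
      exact h3) (by
      intro x hx y hy
      have h3 := hadj (-i) j x y hx (by
        rw [show - -i - 1 = i - 1 by ring]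
        exact hy)
      rwa [show - -i - 1 = i - 1 by ring] at h3)
    exact h2
  rw [e1, e2] at hy
  obtain ⟨y', hy', rfl⟩ := h ⟨hy.2, hy.1⟩
  show W.psi x (W.diff (-i - 1) y') = 0
  rw [← hadj i j x y' hx.1 hy', show W.diff i x = 0 from hx.2, map_zero, LinearMap.zero_apply]

end Dual

section Main

variable {Γ Γ' Γ'' : Type} {d N n q q' q'' : ℕ} {S : SpecialFibre.{u, v} Ω Γ d q}
  {X : SpecialFibre.{u, v} Ω Γ' N q'} (P : Product S.toStrataData X.toStrataData)
  {M₀ M₁ : Module.End Ω P.U}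

lemma res_κ (a : ℕ) (y : S.H a ⊗[Ω] P.U) :
    X.res a (P.κ a y) = P.κ (a + 1) (rT S P.U a y) := by
  have h : X.res a ∘ₗ (P.κ a).toLinearMap = (P.κ (a + 1)).toLinearMap ∘ₗ rT S P.U a := by
    apply TensorProduct.ext'
    intro x u
    exact P.res a x u
  exact LinearMap.congr_fun h y

lemma gys_κ (a : ℕ) (y : S.H (a + 1) ⊗[Ω] P.U) :
    X.gys a (P.κ (a + 1) y) = P.κ a (gT S P.U a y) := by
  have h : X.gys a ∘ₗ (P.κ (a + 1)).toLinearMap = (P.κ a).toLinearMap ∘ₗ gT S P.U a := by
    apply TensorProduct.ext'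
    intro x u
    exact P.gys a x u
  exact LinearMap.congr_fun h y

include P in
lemma H_zero (hd : d ≤ 2) {a : ℕ} (ha : 3 ≤ a) (x : X.H a) : x = 0 := by
  obtain ⟨y, rfl⟩ := (P.κ a).surjective x
  have hy : y = 0 := by
    induction y using TensorProduct.induction_on with
    | zero => rfl
    | tmul x u => rw [S.eq_zero_of_lt (by omega) x, TensorProduct.zero_tmul]
    | add x y hx hy => rw [hx, hy, add_zero]
  rw [hy, map_zero]

variable {Z : SemistableModel.{u, v} Ω Γ'' n q''}
  {f : PullBacks X.toStrataData Z.toStrataData} (hf : IsLefschetzMap n f)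

section Push

omit [CharZero Ω] in
/-- The operator `T` with `B'(f x, f y) = B(x, T y)`. -/
lemma exists_op {V V' : Type v} [AddCommGroup V] [Module Ω V] [Module.Finite Ω V]
    [AddCommGroup V'] [Module Ω V'] (B : V →ₗ[Ω] V →ₗ[Ω] Ω) (B' : V' →ₗ[Ω] V' →ₗ[Ω] Ω)
    (hB : ∀ y, (∀ x, B x y = 0) → y = 0) (f : V →ₗ[Ω] V') :
    ∃ T : Module.End Ω V, ∀ x y, B' (f x) (f y) = B x (T y) := by
  have hinj : Function.Injective B.flip := by
    rw [← LinearMap.ker_eq_bot, LinearMap.ker_eq_bot']
    intro y hy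
    exact hB y fun x => LinearMap.congr_fun hy x
  have hsurj : Function.Surjective B.flip := by
    have h1 : finrank Ω V = finrank Ω (Module.Dual Ω V) := (Subspace.dual_finrank_eq).symm
    exact (LinearMap.injective_iff_surjective_of_finrank_eq_finrank h1).1 hinj
  let e := LinearEquiv.ofBijective B.flip ⟨hinj, hsurj⟩
  refine ⟨e.symm.toLinearMap ∘ₗ (B'.compl₁₂ f f).flip, fun x y => ?_⟩
  have h1 := LinearMap.congr_fun (e.apply_symm_apply ((B'.compl₁₂ f f).flip y)) x
  exact h1.symm

variable (T : ∀ a, Module.End Ω (X.H a))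
  (hT : ∀ a x y, Z.pair a (f a x) (f a y) = X.pair a x (T a y))

include hf hT

lemma pull_T (a : ℕ) (y : X.H a) : f a y = 0 ↔ T a y = 0 := by
  constructor
  · intro h
    apply X.pair_nondeg'
    intro x
    rw [← hT, h, map_zero]
  · intro h
    have h2 : ∀ x, Z.pair a (f a x) (f a y) = 0 := by
      intro x
      rw [hT, h, map_zero]
    apply pull_eq_zero (Z := Z.toSpecialFibre) hf
    intro x
    refine X.gr_induction (P := fun x => Z.pair a (f a y) (f a x) = 0) (by simp)
      (fun x y hx hy => by rw [map_add, map_add, hx, hy, add_zero]) (fun m x hx => ?_) x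
    rw [Z.pair_symm a m (f a x) _ (pull_gr (Z := Z.toSpecialFibre) hf hx), h2, mul_zero]

lemma res_T (a : ℕ) (y : X.H a) : X.res a (T a y) = T (a + 1) (X.res a y) := by
  rw [← sub_eq_zero]
  apply X.pair_nondeg'
  intro x
  rw [map_sub, ← hT, pull_res (Z := Z.toSpecialFibre) hf, ← Z.pair_gys,
    ← pull_gys (Z := Z.toSpecialFibre) hf, hT, X.pair_gys, sub_self]

lemma gys_T (a : ℕ) (y : X.H (a + 1)) : X.gys a (T (a + 1) y) = T a (X.gys a y) := by
  rw [← sub_eq_zero]
  apply X.pair_nondeg'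
  intro x
  rw [map_sub, ← hT, pull_gys (Z := Z.toSpecialFibre) hf, ← Z.pair_res,
    ← pull_res (Z := Z.toSpecialFibre) hf, hT, X.pair_res, sub_self]

end Push

variable (hM : P.HasClass f M₀ M₁)

include hM in
lemma T_κ (T : ∀ a, Module.End Ω (X.H a))
    (hT : ∀ a x y, Z.pair a (f a x) (f a y) = X.pair a x (T a y)) (a : ℕ) (ha : 1 ≤ a)
    (y : S.H a ⊗[Ω] P.U) : T a (P.κ a y) = P.κ a (classOp (S.lef a) M₀ M₁ y) := by
  rw [← sub_eq_zero]
  apply X.pair_nondeg'
  intro x
  have h1 : Z.pair a (f a x) (f a (P.κ a y)) = X.pair a x (P.κ a (classOp (S.lef a) M₀ M₁ y)) :=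
    hM a ha x y
  rw [map_sub, ← hT, h1, sub_self]

variable (A : DivisorClasses S) (hd : d ≤ 2)

include hf hM A hd

/-- Column `-2`. -/
lemma col_two (y : X.H 1) (h : f 1 (X.gys 1 (X.res 1 y)) = 0) : f 2 (X.res 1 y) = 0 := by
  choose T hT using fun a => exists_op (X.pair a) (Z.pair a) (X.pair_nondeg' a) (f a)
  obtain ⟨y, rfl⟩ := (P.κ 1).surjective y
  rw [pull_T hf T hT, res_κ P, T_κ P hM T hT 2 (by norm_num)]
  rw [pull_T hf T hT, res_κ P, gys_κ P, T_κ P hM T hT 1 le_rfl] at h
  have h1 : classOp (S.lef 1) M₀ M₁ (gT S P.U 1 (rT S P.U 1 y)) = 0 := by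
    apply (P.κ 1).injective
    rw [map_zero]
    exact h
  rw [tensor_two M₀ M₁ A hd y h1, map_zero]

/-- Column `-1`. -/
lemma col_one (y : X.H 0) (h : f 0 (X.gys 0 (X.res 0 y)) = 0) :
    ∃ z : X.H 2, f 1 (X.res 0 y) = f 1 (X.gys 1 z) := by
  choose T hT using fun a => exists_op (X.pair a) (Z.pair a) (X.pair_nondeg' a) (f a)
  obtain ⟨y, rfl⟩ := (P.κ 0).surjective y
  obtain ⟨y', hy'⟩ := (P.κ 0).surjective (T 0 (P.κ 0 y))
  have h1 : classOp (S.lef 1) M₀ M₁ (rT S P.U 0 y) = rT S P.U 0 y' := by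
    apply (P.κ 1).injective
    rw [← T_κ P hM T hT 1 le_rfl, ← res_κ P, ← res_κ P, hy']
    exact (res_T hf T hT 0 _).symm
  have h2 : gT S P.U 0 (rT S P.U 0 y') = 0 := by
    apply (P.κ 0).injective
    rw [map_zero, ← gys_κ P, ← res_κ P, hy', res_T hf T hT, gys_T hf T hT]
    exact (pull_T hf T hT 0 _).1 h
  obtain ⟨z, hz⟩ := tensor_one M₀ M₁ A hd y y' h1 h2
  refine ⟨P.κ 2 z, ?_⟩
  rw [← sub_eq_zero, ← map_sub, pull_T hf T hT, map_sub, res_κ P, gys_κ P, sub_eq_zero]
  exact (T_κ P hM T hT 1 le_rfl _).trans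
    ((congrArg (P.κ 1) hz).trans (T_κ P hM T hT 1 le_rfl _).symm)

/-- The injectivity for the quotient complex. -/
theorem nInj_K (hdK : ∀ r, LinearMap.ker (fC (Z := Z.toSpecialFibre) f) ≤
      (LinearMap.ker (fC (Z := Z.toSpecialFibre) f)).comap (X.diff r)) (i : ℕ) (hi : 1 ≤ i)
    (l : ℤ) : NInj (dK X (LinearMap.ker (fC (Z := Z.toSpecialFibre) f)) hdK)
      (GK X n (LinearMap.ker (fC (Z := Z.toSpecialFibre) f))) i l := by
  set K := LinearMap.ker (fC (Z := Z.toSpecialFibre) f) with hK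
  have hmk : ∀ x y : X.C, K.mkQ x = K.mkQ y ↔ ∀ a, f a (x a) = f a (y a) := by
    intro x y
    rw [← sub_eq_zero, ← map_sub, Submodule.mkQ_apply, Submodule.Quotient.mk_eq_zero, hK,
      LinearMap.mem_ker, map_sub, sub_eq_zero]
    exact funext_iff
  rintro k ⟨⟨⟨x, hx, rfl⟩, hx0⟩, ⟨_, ⟨y, hy, rfl⟩, hyx⟩⟩
  have hx0' : ∀ a, f a (X.diff (-i) x a) = 0 := by
    have h1 : K.mkQ (X.diff (-i) x) = K.mkQ 0 := by
      rw [map_zero]
      exact hx0
    intro a
    rw [(hmk _ _).1 h1 a]
    exact map_zero _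
  have hyx' : ∀ a, f a (X.diff (i - 1) y a) = f a (x a) := (hmk _ _).1 hyx
  have h3 : ∀ a, 3 ≤ a → ∀ x : X.H a, x = 0 := fun a ha x => H_zero P hd ha x
  rcases Nat.lt_or_ge i 3 with hi3 | hi3
  · rcases Nat.lt_or_ge i 2 with hi2 | hi2
    · -- column `-1`
      obtain rfl : i = 1 := by omega
      have ey : X.diff ((1 : ℕ) - 1) y 1 = X.res 0 (y 0) + X.gys 1 (y 2) := by
        rw [X.diff_apply, X.cut_of (by unfold InColumn; push_cast; norm_num)]
        rfl
      have ex : X.diff (-(1 : ℕ)) x 0 = X.gys 0 (x 1) := by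
        rw [X.diff_apply, X.cut_of (by unfold InColumn; push_cast; norm_num)]
        show (0 : X.H 0) + X.gys 0 (x 1) = _
        rw [zero_add]
      have h1 : f 1 (X.res 0 (y 0)) = f 1 (x 1) - f 1 (X.gys 1 (y 2)) := by
        rw [← hyx' 1, ey, map_add, add_sub_cancel_right]
      have h2 : f 0 (X.gys 0 (X.res 0 (y 0))) = 0 := by
        rw [pull_gys (Z := Z.toSpecialFibre) hf, h1, map_sub,
          ← pull_gys (Z := Z.toSpecialFibre) hf, ← pull_gys (Z := Z.toSpecialFibre) hf, X.gys_gys,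
          map_zero, sub_zero, ← ex]
        exact hx0' 0
      obtain ⟨z, hz⟩ := col_one P hf hM A hd (y 0) h2
      -- a homogeneous lift
      have hy0 : f 1 (X.res 0 (y 0)) ∈ Z.gr 1 (n + l - 3 + 2) := by
        have h4 := pull_gr (Z := Z.toSpecialFibre) hf (X.res_gr 0 _ _ (hy 0).1)
        rwa [show (n : ℤ) + (l - 1) - ((1 : ℕ) - 1) + ((1 : ℕ) - 1) - (0 : ℕ) = n + l - 3 + 2 by
          push_cast; ring] at h4
      obtain ⟨z1, hz1, hzz⟩ := exists_homog X (iSupIndep_gr Z.toSpecialFibre 1)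
        (φ := f 1 ∘ₗ X.gys 1) (s := 2)
        (fun m x hx => pull_gr (Z := Z.toSpecialFibre) hf (X.gys_gr 1 m x hx)) (n + l - 3) z (by
          rw [LinearMap.comp_apply, ← hz]
          exact hy0)
      have hy2 : y 2 ∈ X.gr 2 (n + l - 3) := by
        have h4 := (hy 2).1
        rwa [show (n : ℤ) + (l - 1) - ((1 : ℕ) - 1) + ((1 : ℕ) - 1) - (2 : ℕ) = n + l - 3 by
          push_cast; ring] at h4
      let w : X.C := Pi.single 2 (z1 + y 2)
      have hw2 : w 2 = z1 + y 2 := Pi.single_eq_same _ _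
      have hw : ∀ c, c ≠ 2 → w c = 0 := fun c hc => Pi.single_eq_of_ne hc _
      refine ⟨K.mkQ w, ⟨w, ?_, rfl⟩, ?_⟩
      · intro c
        by_cases hc : c = 2
        · subst hc
          refine ⟨?_, fun h => absurd (by unfold InColumn; push_cast; norm_num) h⟩
          rw [hw2, show (n : ℤ) + (l - 1) - (-(1 : ℕ) - 1) + (-(1 : ℕ) - 1) - (2 : ℕ) =
            n + l - 3 by push_cast; ring]
          exact Submodule.add_mem _ hz1 hy2
        · rw [hw c hc]
          exact ⟨Submodule.zero_mem _, fun _ => rfl⟩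
      · show K.mkQ (X.diff (-(1 : ℕ) - 1) w) = K.mkQ x
        rw [hmk]
        intro c
        by_cases hc : c = 1
        · subst hc
          have ew : X.diff (-(1 : ℕ) - 1) w 1 = X.gys 1 (z1 + y 2) := by
            rw [X.diff_apply, X.cut_of (by unfold InColumn; push_cast; norm_num)]
            have e1 : X.res 0 (w 0) = 0 := by rw [hw 0 (by norm_num), map_zero]
            show X.res 0 (w 0) + X.gys 1 (w 2) = _
            rw [e1, hw2]
            exact zero_add (X.gys 1 (z1 + y 2))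
          have hzz' : f 1 (X.gys 1 z1) = f 1 (X.gys 1 z) := hzz
          rw [ew, map_add, map_add, hzz', ← hz, ← map_add, ← ey]
          exact hyx' 1
        · by_cases hcc : InColumn (-(1 : ℕ)) c
          · have hc3 : 3 ≤ c := by
              have h5 := hcc.1
              have h6 := hcc.2
              rw [abs_neg, Nat.abs_cast] at h5
              omega
            rw [h3 c hc3 (X.diff (-(1 : ℕ) - 1) w c), h3 c hc3 (x c)]
          · rw [(hx c).2 hcc, X.diff_apply, show (-(1 : ℕ) - 1 + 1 : ℤ) = -(1 : ℕ) by ring,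
              X.cut_of_not hcc]
    · -- column `-2`
      obtain rfl : i = 2 := by omega
      have hx00 : x 0 = 0 := by
        apply (hx 0).2
        rintro ⟨h5, -⟩
        rw [abs_neg, Nat.abs_cast] at h5
        omega
      have ey : X.diff ((2 : ℕ) - 1) y 2 = X.res 1 (y 1) := by
        rw [X.diff_apply, X.cut_of (by unfold InColumn; push_cast; norm_num)]
        show X.res 1 (y 1) + X.gys 2 (y 3) = _
        rw [h3 3 le_rfl (y 3), map_zero, add_zero]
      have ex : X.diff (-(2 : ℕ)) x 1 = X.gys 1 (x 2) := by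
        rw [X.diff_apply, X.cut_of (by unfold InColumn; push_cast; norm_num)]
        have e1 : X.res 0 (x 0) = 0 := by rw [hx00, map_zero]
        show X.res 0 (x 0) + X.gys 1 (x 2) = _
        rw [e1]
        exact zero_add (X.gys 1 (x 2))
      have h1 : f 2 (X.res 1 (y 1)) = f 2 (x 2) := by
        rw [← hyx' 2, ey]
      have h2 : f 2 (x 2) = 0 := by
        rw [← h1]
        apply col_two P hf hM A hd
        rw [pull_gys (Z := Z.toSpecialFibre) hf, h1, ← pull_gys (Z := Z.toSpecialFibre) hf, ← ex]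
        exact hx0' 1
      have h4 : K.mkQ x = 0 := by
        rw [← map_zero K.mkQ, hmk]
        intro c
        have h5 : f c ((0 : X.C) c) = 0 := map_zero _
        rw [h5]
        by_cases hc : c = 2
        · subst hc
          exact h2
        · by_cases hcc : InColumn (-(2 : ℕ)) c
          · have hc3 : 3 ≤ c := by
              have h5 := hcc.1
              rw [abs_neg, Nat.abs_cast] at h5
              omega
            rw [h3 c hc3 (x c), map_zero]
          · rw [(hx c).2 hcc, map_zero]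
      rw [h4]
      exact Submodule.zero_mem _
  · have h4 : x = 0 := by
      funext c
      by_cases hcc : InColumn (-(i : ℤ)) c
      · have hc3 : 3 ≤ c := by
          have h5 := hcc.1
          rw [abs_neg, Nat.abs_cast] at h5
          omega
        exact h3 c hc3 (x c)
      · exact (hx c).2 hcc
    rw [h4, map_zero]
    exact Submodule.zero_mem _

/-- **The main theorem.** -/
theorem pure_of_product [IsAlgClosed Ω] (hq : 1 < q'') (j : ℕ) : IsPureIn Z j := by
  rw [pure_iff_E₂ Z hq j]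
  intro k hk
  have hd' := ker_le (Z := Z.toSpecialFibre) hf
  have hI : ∀ l, NInj Z.diff Z.tot k l := fun l =>
    ((retract (Z := Z.toSpecialFibre) hf _ rfl hd').nInj_iff k l).2
      (nInj_K P hf hM A hd hd' k hk l)
  exact ⟨hI _, nSurj_of_nInj Z.toSpecialFibre k _ (hI _)⟩

end Main

end Pool.Agent.H849.SG
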