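import Pool.Agent.H849.LM.Defs

/-!
# Products with a variety of good reduction: definitions

Let `S` be a proper scheme or rigid-analytic space with strictly semistable reduction, `G` a proper
one with good reduction. The strata of the special fibre of `X = S × G` are the products of the strata
of `S` with the special fibre of `G`, so that their cohomology is `H(Y^(a+1)(S)) ⊗ U`, where `U` is
the cohomology of `G` (Kuenneth formula). The restriction and the Gysin maps come from `S`.

We consider Lefschetz maps `f : Z → X` such that the restriction of the class `f_* 1` to the products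
of the double curves of `S` with `G` is `1 ⊗ β_0 + L ⊗ β_1`, where `L` is the class of the polarization
of `S` and the `β_k` are arbitrary classes on `G`. For example, `Z` is a complete intersection of
ample divisors with the classes `A_i ⊗ 1 + 1 ⊗ B_i`, where the `B_i` are arbitrary and the restriction
of `A_i` to the double curves is proportional to `L`, or `Z → X` is a covering ramified along such
divisors.
-/

set_option autoImplicit false

namespace Pool.Agent.H849.SG

open Module TensorProduct Pool.Agent.Y143 Pool.Agent.H849.SEC Pool.Agent.H849.LM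

universe u v

section Variety

variable {Ω : Type u} [Field Ω] {H H' K K' U : Type v} [AddCommGroup H] [Module Ω H]
  [AddCommGroup H'] [Module Ω H'] [AddCommGroup K] [Module Ω K] [AddCommGroup K'] [Module Ω K']
  [AddCommGroup U] [Module Ω U]

/-- The map `τ` is `ρ ⊗ 1` with respect to the isomorphisms `κ : H ⊗ U ≃ K` and
`κ' : H' ⊗ U ≃ K'`. -/
def IsTensor (κ : (H ⊗[Ω] U) ≃ₗ[Ω] K) (κ' : (H' ⊗[Ω] U) ≃ₗ[Ω] K') (ρ : H →ₗ[Ω] H')
    (τ : K →ₗ[Ω] K') : Prop :=
  ∀ (x : H) (u : U), τ (κ (x ⊗ₜ[Ω] u)) = κ' (ρ x ⊗ₜ[Ω] u)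

/-- The cup product with the class `1 ⊗ β₀ + L ⊗ β₁`, where `M₀` and `M₁` are the cup products with the
classes `β₀` and `β₁`. -/
noncomputable def classOp (L : Module.End Ω H) (M₀ M₁ : Module.End Ω U) :
    Module.End Ω (H ⊗[Ω] U) :=
  TensorProduct.map LinearMap.id M₀ + TensorProduct.map L M₁

/-- The projection formula `⟨f x, f y⟩ = ⟨x, f_* 1 ∪ y⟩` with the class
`f_* 1 = 1 ⊗ β₀ + L ⊗ β₁`. -/
def ProjectionFormula (κ : (H ⊗[Ω] U) ≃ₗ[Ω] K) (B : K →ₗ[Ω] K →ₗ[Ω] Ω)
    (B' : K' →ₗ[Ω] K' →ₗ[Ω] Ω) (L : Module.End Ω H) (M₀ M₁ : Module.End Ω U)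
    (f : K →ₗ[Ω] K') : Prop :=
  ∀ x y, ev B' (f x) (f (κ y)) = ev B x (κ (classOp L M₀ M₁ y))

end Variety

variable {Ω : Type u} [Field Ω] {Γ Γ' Γ'' : Type}

/-- The special fibre of `X` is the one of `S × G`, where `G` has good reduction and the cohomology
`U`: the `κ a` are the Kuenneth isomorphisms for the strata, and the restriction maps and the Gysin
maps of `X` are those of `S`, tensored with the identity of `U`. -/
structure Product (S : StrataData.{u, v} Ω Γ) (X : StrataData.{u, v} Ω Γ') where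
  U : Type v
  [addCommGroup : AddCommGroup U]
  [module : Module Ω U]
  κ : ∀ a : ℕ, (S.H a ⊗[Ω] U) ≃ₗ[Ω] X.H a
  res : ∀ a : ℕ, IsTensor (κ a) (κ (a + 1)) (S.res a) (X.res a)
  gys : ∀ a : ℕ, IsTensor (κ (a + 1)) (κ a) (S.gys a) (X.gys a)

attribute [instance] Product.addCommGroup Product.module

/-- The restriction of the class `f_* 1` of `f : Z → X = S × G` to the strata `Y^(a+1)(S) × G`,
`a ≥ 1`, is `1 ⊗ β₀ + L ⊗ β₁`, where `M₀` and `M₁` are the cup products with the classes `β₀` and
`β₁` of `G`. -/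
def Product.HasClass {S : StrataData.{u, v} Ω Γ} {X : StrataData.{u, v} Ω Γ'}
    {Z : StrataData.{u, v} Ω Γ''} (P : Product S X) (f : PullBacks X Z)
    (M₀ M₁ : Module.End Ω P.U) : Prop :=
  ∀ a : ℕ, 1 ≤ a → ProjectionFormula (P.κ a) (X.pair a) (Z.pair a) (S.lef a) M₀ M₁ (f a)

end Pool.Agent.H849.SG
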