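import Mathlib

/-!
# Lattices with a definite form in a vector space
-/

set_option autoImplicit false

open Module

namespace Pool.Agent.H849.SG

variable {Ω : Type*} [Field Ω] [CharZero Ω] {V : Type*} [AddCommGroup V] [Module Ω V]

/-- A finitely generated subgroup on which the form `β` is integral and definite. -/
structure IsDef (β : V →ₗ[Ω] V →ₗ[Ω] Ω) (A : AddSubgroup V) : Prop where
  fg : A.FG
  int : ∀ x ∈ A, ∀ y ∈ A, ∃ k : ℤ, β x y = k
  definite : ∀ x ∈ A, β x x = 0 → x = 0

lemma fg_mono {A B : AddSubgroup V} (hA : A.FG) (h : B ≤ A) : B.FG := by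
  have h1 : (AddSubgroup.toIntSubmodule A).FG := by
    rw [Submodule.fg_iff_addSubgroup_fg]
    exact hA
  have h2 : (AddSubgroup.toIntSubmodule B).FG := h1.of_le h
  rw [Submodule.fg_iff_addSubgroup_fg] at h2
  exact h2

omit [CharZero Ω] in
lemma IsDef.mono {β : V →ₗ[Ω] V →ₗ[Ω] Ω} {A B : AddSubgroup V} (h : IsDef β A) (hB : B ≤ A) :
    IsDef β B :=
  ⟨fg_mono h.fg hB, fun x hx y hy => h.int x (hB hx) y (hB hy), fun x hx => h.definite x (hB hx)⟩

/-- There is a basis of the lattice which is linearly independent over `Ω`. -/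
theorem IsDef.frame {β : V →ₗ[Ω] V →ₗ[Ω] Ω} {A : AddSubgroup V} (h : IsDef β A) :
    ∃ (r : ℕ) (e : Fin r → V), (∀ i, e i ∈ A) ∧
      (∀ x ∈ A, ∃ c : Fin r → ℤ, x = ∑ i, (c i : Ω) • e i) ∧
      ∀ c : Fin r → Ω, (∀ j, β (∑ i, c i • e i) (e j) = 0) → c = 0 := by
  have : Module.Finite ℤ A := by
    rw [Module.Finite.iff_addGroup_fg]
    exact (AddGroup.fg_iff_addSubgroup_fg A).2 h.fg
  have hV : IsAddTorsionFree V := by
    let _ : Module ℚ V := Module.compHom V (algebraMap ℚ Ω)
    exact IsAddTorsionFree.of_module_rat V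
  have : IsAddTorsionFree A := inferInstance
  have : Module.Free ℤ A := inferInstance
  let b := Module.finBasis ℤ A
  refine ⟨_, fun i => (b i : V), fun i => (b i).2, fun x hx => ⟨fun i => b.repr ⟨x, hx⟩ i, ?_⟩, ?_⟩
  · have h1 := congrArg (fun y : A => (y : V)) (b.sum_repr ⟨x, hx⟩)
    simp only [AddSubgroup.val_finsetSum] at h1
    refine h1.symm.trans (Finset.sum_congr rfl fun i _ => ?_)
    rw [AddSubgroup.coe_zsmul, Int.cast_smul_eq_zsmul]
  · intro c hc
    choose k hk using fun i j => h.int (b i) (b i).2 (b j) (b j).2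
    let K : Matrix (Fin (finrank ℤ A)) (Fin (finrank ℤ A)) ℤ := Matrix.of k
    have hdet : K.det ≠ 0 := by
      intro h0
      obtain ⟨v, hv, hv0⟩ := Matrix.exists_vecMul_eq_zero_iff.2 h0
      apply hv
      have h1 : (∑ i, v i • b i) = 0 := by
        apply Subtype.ext
        apply h.definite _ (∑ i, v i • b i : A).2
        have h2 : ∀ j, β ((∑ i, v i • b i : A) : V) (b j) = 0 := by
          intro j
          have h3 := congrFun hv0 j
          rw [Matrix.vecMul, dotProduct] at h3
          have h4 : ((∑ i, v i * K i j : ℤ) : Ω) = 0 := by rw [h3]; simp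
          rw [AddSubgroup.val_finsetSum, map_sum, LinearMap.sum_apply, ← h4]
          push_cast
          refine Finset.sum_congr rfl fun i _ => ?_
          rw [map_zsmul, LinearMap.smul_apply, hk, zsmul_eq_mul]
          rfl
        have h5 : ∀ y ∈ A, β ((∑ i, v i • b i : A) : V) y = 0 := by
          intro y hy
          have h6 := congrArg (fun y : A => (y : V)) (b.sum_repr ⟨y, hy⟩)
          simp only [AddSubgroup.val_finsetSum] at h6
          rw [← h6, map_sum]
          refine Finset.sum_eq_zero fun i _ => ?_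
          rw [AddSubgroup.coe_zsmul, map_zsmul, h2, smul_zero]
        exact h5 _ (∑ i, v i • b i : A).2
      have h6 := Fintype.linearIndependent_iff.1 b.linearIndependent v h1
      funext i
      exact h6 i
    have hdet' : (K.map (Int.castRingHom Ω)).det ≠ 0 := by
      rw [← RingHom.mapMatrix_apply, ← RingHom.map_det]
      simpa using hdet
    apply Matrix.eq_zero_of_vecMul_eq_zero hdet'
    funext j
    have h7 := hc j
    rw [map_sum, LinearMap.sum_apply] at h7
    rw [Matrix.vecMul, dotProduct, Pi.zero_apply, ← h7]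
    refine Finset.sum_congr rfl fun i _ => ?_
    rw [map_smul, LinearMap.smul_apply, smul_eq_mul, hk]
    rfl

omit [CharZero Ω] in
lemma mem_span_frame {A : AddSubgroup V} {r : ℕ} {e : Fin r → V}
    (hs : ∀ x ∈ A, ∃ c : Fin r → ℤ, x = ∑ i, (c i : Ω) • e i) {x : V}
    (hx : x ∈ Submodule.span Ω (A : Set V)) : ∃ c : Fin r → Ω, x = ∑ i, c i • e i := by
  have h1 : Submodule.span Ω (A : Set V) ≤ Submodule.span Ω (Set.range e) := by
    rw [Submodule.span_le]
    intro y hy
    obtain ⟨c, rfl⟩ := hs y hy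
    exact Submodule.sum_mem _ fun i _ => Submodule.smul_mem _ _ (Submodule.subset_span ⟨i, rfl⟩)
  obtain ⟨c, hc⟩ := (Submodule.mem_span_range_iff_exists_fun Ω).1 (h1 hx)
  exact ⟨c, hc.symm⟩

/-- The form is nondegenerate on the `Ω`-span of the lattice. -/
theorem IsDef.eq_zero {β : V →ₗ[Ω] V →ₗ[Ω] Ω} {A : AddSubgroup V} (h : IsDef β A) {x : V}
    (hx : x ∈ Submodule.span Ω (A : Set V)) (h0 : ∀ y ∈ A, β x y = 0) : x = 0 := by
  obtain ⟨r, e, he, hs, hi⟩ := h.frame
  obtain ⟨c, rfl⟩ := mem_span_frame hs hx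
  have hc := hi c fun j => h0 _ (he j)
  rw [hc]
  simp

/-- The elements of `A` in the kernel of `f`. -/
def kerIn {V' : Type*} [AddCommGroup V'] [Module Ω V'] (A : AddSubgroup V) (f : V →ₗ[Ω] V') :
    AddSubgroup V := A ⊓ (LinearMap.ker f).toAddSubgroup

omit [CharZero Ω] in
lemma mem_kerIn {V' : Type*} [AddCommGroup V'] [Module Ω V'] {A : AddSubgroup V}
    {f : V →ₗ[Ω] V'} {x : V} : x ∈ kerIn A f ↔ x ∈ A ∧ f x = 0 := Iff.rfl

/-- The kernel of a rational map is spanned by rational vectors. -/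
theorem IsDef.flat {V' : Type*} [AddCommGroup V'] [Module Ω V'] {β' : V' →ₗ[Ω] V' →ₗ[Ω] Ω}
    {B : AddSubgroup V'} (h : IsDef β' B) {A : AddSubgroup V} {f : V →ₗ[Ω] V'}
    (hf : ∀ x ∈ A, f x ∈ B) {x : V} (hx : x ∈ Submodule.span Ω (A : Set V)) (h0 : f x = 0) :
    x ∈ Submodule.span Ω (kerIn A f : Set V) := by
  have h' : IsDef β' (A.map f.toAddMonoidHom) := by
    apply h.mono
    rintro _ ⟨y, hy, rfl⟩
    exact hf y hy
  obtain ⟨r, e, he, hs, hi⟩ := h'.frame
  choose b hb hbe using he
  have h1 : Submodule.span Ω (A : Set V) ≤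
      Submodule.span Ω (kerIn A f : Set V) ⊔ Submodule.span Ω (Set.range b) := by
    rw [Submodule.span_le]
    intro y hy
    obtain ⟨c, hc⟩ := hs (f y) ⟨y, hy, rfl⟩
    have h2 : ∑ i, c i • b i ∈ A := AddSubgroup.sum_mem _ fun i _ => AddSubgroup.zsmul_mem _ (hb i) _
    have h3 : y - ∑ i, c i • b i ∈ kerIn A f := by
      refine mem_kerIn.2 ⟨A.sub_mem hy h2, ?_⟩
      rw [map_sub, hc, map_sum, sub_eq_zero]
      refine Finset.sum_congr rfl fun i _ => ?_
      rw [map_zsmul, Int.cast_smul_eq_zsmul, ← hbe i]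
      rfl
    have h4 : (∑ i, c i • b i) ∈ Submodule.span Ω (Set.range b) :=
      Submodule.sum_mem _ fun i _ => by
        rw [← Int.cast_smul_eq_zsmul Ω]
        exact Submodule.smul_mem _ _ (Submodule.subset_span ⟨i, rfl⟩)
    exact Submodule.mem_sup.2 ⟨_, Submodule.subset_span h3, _, h4, by abel⟩
  obtain ⟨u, hu, v, hv, rfl⟩ := Submodule.mem_sup.1 (h1 hx)
  obtain ⟨c, rfl⟩ := (Submodule.mem_span_range_iff_exists_fun Ω).1 hv
  have h5 : f u = 0 := by
    have h6 : Submodule.span Ω (kerIn A f : Set V) ≤ LinearMap.ker f := by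
      rw [Submodule.span_le]
      intro y hy
      exact hy.2
    exact h6 hu
  have h7 : c = 0 := by
    apply hi
    intro j
    have h8 : (∑ i, c i • e i) = 0 := by
      rw [map_add, h5, zero_add, map_sum] at h0
      rw [← h0]
      refine Finset.sum_congr rfl fun i _ => ?_
      rw [map_smul, ← hbe i]
      rfl
    rw [h8, map_zero, LinearMap.zero_apply]
  rw [h7]
  simpa using hu

/-- The standard form on `Ω ^ s`. -/
noncomputable def dotForm (Ω : Type*) [Field Ω] (s : ℕ) : (Fin s → Ω) →ₗ[Ω] (Fin s → Ω) →ₗ[Ω] Ω :=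
  LinearMap.mk₂ Ω (fun x y => ∑ i, x i * y i)
    (fun x x' y => by simp only [Pi.add_apply, add_mul, Finset.sum_add_distrib])
    (fun c x y => by simp only [Pi.smul_apply, smul_eq_mul, Finset.mul_sum, mul_assoc])
    (fun x y y' => by simp only [Pi.add_apply, mul_add, Finset.sum_add_distrib])
    (fun c x y => by
      simp only [Pi.smul_apply, smul_eq_mul, Finset.mul_sum]
      exact Finset.sum_congr rfl fun i _ => by ring)

/-- The integral vectors. -/
def intVec (Ω : Type*) [Field Ω] (s : ℕ) : AddSubgroup (Fin s → Ω) where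
  carrier := {x | ∀ i, ∃ k : ℤ, x i = k}
  zero_mem' i := ⟨0, by simp⟩
  add_mem' hx hy i := by
    obtain ⟨k, hk⟩ := hx i
    obtain ⟨l, hl⟩ := hy i
    exact ⟨k + l, by rw [Pi.add_apply, hk, hl]; push_cast; rfl⟩
  neg_mem' hx i := by
    obtain ⟨k, hk⟩ := hx i
    exact ⟨-k, by rw [Pi.neg_apply, hk]; push_cast; rfl⟩

lemma intVec_def (s : ℕ) : IsDef (dotForm Ω s) (intVec Ω s) where
  fg := by
    let f : (Fin s → ℤ) →+ intVec Ω s :=
      { toFun := fun k => ⟨fun i => (k i : Ω), fun i => ⟨k i, rfl⟩⟩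
        map_zero' := Subtype.ext (funext fun i => by simp)
        map_add' := fun k l => Subtype.ext (funext fun i => by simp) }
    have h1 : Module.Finite ℤ (intVec Ω s) := by
      refine Module.Finite.of_surjective f.toIntLinearMap ?_
      rintro ⟨x, hx⟩
      choose k hk using (show ∀ i, ∃ k : ℤ, x i = k from hx)
      exact ⟨k, Subtype.ext (funext fun i => (hk i).symm)⟩
    exact (AddGroup.fg_iff_addSubgroup_fg _).1 (Module.Finite.iff_addGroup_fg.1 h1)
  int x hx y hy := by
    choose k hk using hx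
    choose l hl using hy
    refine ⟨∑ i, k i * l i, ?_⟩
    show ∑ i, x i * y i = _
    push_cast
    exact Finset.sum_congr rfl fun i _ => by rw [hk, hl]
  definite x hx h0 := by
    choose k hk using hx
    have h1 : ((∑ i, k i * k i : ℤ) : Ω) = 0 := by
      rw [← h0]
      show _ = ∑ i, x i * x i
      push_cast
      exact Finset.sum_congr rfl fun i _ => by rw [hk]
    have h2 : (∑ i, k i * k i : ℤ) = 0 := by exact_mod_cast h1
    rw [Finset.sum_eq_zero_iff_of_nonneg fun i _ => mul_self_nonneg _] at h2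
    funext i
    have h3 := mul_self_eq_zero.1 (h2 i (Finset.mem_univ i))
    rw [hk, h3]
    simp

end Pool.Agent.H849.SG
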