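import Pool.Agent.H849.SG.Surf2
import Pool.Agent.H849.SG.Defs

/-!
# The facts on surfaces after tensoring with the cohomology of `G`
-/

set_option autoImplicit false

namespace Pool.Agent.H849.SG

open Module TensorProduct Pool.Agent.Y143

universe u v

section Factor

variable {Ω : Type*} [Field Ω] {V W W' P T : Type*} [AddCommGroup V] [Module Ω V]
  [AddCommGroup W] [Module Ω W] [AddCommGroup W'] [Module Ω W'] [AddCommGroup P] [Module Ω P]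
  [AddCommGroup T] [Module Ω T]

lemma exists_factor (f : V →ₗ[Ω] W) (g : V →ₗ[Ω] W') (h : ∀ x, f x = 0 → g x = 0) :
    ∃ k : W →ₗ[Ω] W', ∀ x, k (f x) = g x := by
  have hle : LinearMap.ker f ≤ LinearMap.ker g := fun x hx => h x hx
  obtain ⟨k, hk⟩ := LinearMap.exists_extend
    ((LinearMap.ker f).liftQ g hle ∘ₗ f.quotKerEquivRange.symm.toLinearMap)
  refine ⟨k, fun x => ?_⟩
  have h1 := LinearMap.congr_fun hk ⟨f x, LinearMap.mem_range_self f x⟩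
  have h2 : k (f x) = ((LinearMap.ker f).liftQ g hle)
      (f.quotKerEquivRange.symm ⟨f x, LinearMap.mem_range_self f x⟩) := h1
  rw [h2, LinearMap.quotKerEquivRange_symm_apply_image]
  simp

lemma exists_section (γ : P →ₗ[Ω] W) :
    ∃ s : LinearMap.range γ →ₗ[Ω] P, ∀ y : LinearMap.range γ, γ (s y) = y := by
  obtain ⟨s, hs⟩ := γ.rangeRestrict.exists_rightInverse_of_surjective
    (LinearMap.range_rangeRestrict _)
  exact ⟨s, fun y => congrArg Subtype.val (LinearMap.congr_fun hs y)⟩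

lemma exists_B (ρ : V →ₗ[Ω] W) (γ : P →ₗ[Ω] W) (φ : V →ₗ[Ω] T)
    (h : ∀ x, φ x = 0 → ∃ y, ρ x = γ y) :
    ∃ (κ : V →ₗ[Ω] P) (η : T →ₗ[Ω] W), ∀ x, ρ x = γ (κ x) + η (φ x) := by
  obtain ⟨η', hη'⟩ := exists_factor φ ((LinearMap.range γ).mkQ ∘ₗ ρ) (by
    intro x hx
    obtain ⟨y, hy⟩ := h x hx
    rw [LinearMap.comp_apply, hy]
    simp)
  obtain ⟨s, hs⟩ := (LinearMap.range γ).mkQ.exists_rightInverse_of_surjective
    (Submodule.range_mkQ _)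
  obtain ⟨s2, hs2⟩ := exists_section γ
  let δ : V →ₗ[Ω] W := ρ - s ∘ₗ η' ∘ₗ φ
  have hδ : ∀ x, δ x ∈ LinearMap.range γ := by
    intro x
    have h1 : (LinearMap.range γ).mkQ (δ x) = 0 := by
      have h2 := LinearMap.congr_fun hs (η' (φ x))
      have h3 : (LinearMap.range γ).mkQ (s (η' (φ x))) = η' (φ x) := h2
      show (LinearMap.range γ).mkQ (ρ x - s (η' (φ x))) = 0
      rw [map_sub, h3, hη']
      simp
    rwa [Submodule.mkQ_apply, Submodule.Quotient.mk_eq_zero] at h1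
  refine ⟨s2 ∘ₗ δ.codRestrict _ hδ, s ∘ₗ η', fun x => ?_⟩
  have h3 : γ (s2 (δ.codRestrict _ hδ x)) = δ x := hs2 _
  show ρ x = γ (s2 (δ.codRestrict _ hδ x)) + s (η' (φ x))
  rw [h3]
  show ρ x = ρ x - s (η' (φ x)) + s (η' (φ x))
  rw [sub_add_cancel]

lemma exists_C (γ : P →ₗ[Ω] W) (L : Module.End Ω W) (ρ : W →ₗ[Ω] T)
    (h : ∀ v, ρ v = 0 → ∀ t, L v = γ t → L v = 0) :
    ∃ (σ : W →ₗ[Ω] P) (θ : T →ₗ[Ω] P), (∀ t, γ (σ (γ t)) = γ t) ∧ ∀ v, σ (L v) = θ (ρ v) := by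
  obtain ⟨s2, hs2⟩ := exists_section γ
  let D : Submodule Ω W := (LinearMap.ker ρ).map L
  obtain ⟨k, hk⟩ := exists_factor (D.mkQ ∘ₗ γ) (s2 ∘ₗ γ.rangeRestrict) (by
    intro t ht
    have h1 : γ t ∈ D := by
      rwa [LinearMap.comp_apply, Submodule.mkQ_apply, Submodule.Quotient.mk_eq_zero] at ht
    obtain ⟨v, hv, hvt⟩ := h1
    have h2 : γ t = 0 := by
      rw [← hvt]
      exact h v hv t hvt
    have h3 : γ.rangeRestrict t = 0 := Subtype.ext h2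
    rw [LinearMap.comp_apply, h3, map_zero])
  obtain ⟨θ, hθ⟩ := exists_factor ρ (k ∘ₗ D.mkQ ∘ₗ L) (by
    intro v hv
    have h1 : D.mkQ (L v) = 0 := by
      rw [Submodule.mkQ_apply, Submodule.Quotient.mk_eq_zero]
      exact ⟨v, hv, rfl⟩
    show k (D.mkQ (L v)) = 0
    rw [h1, map_zero])
  refine ⟨k ∘ₗ D.mkQ, θ, fun t => ?_, fun v => (hθ v).symm⟩
  have h1 : k (D.mkQ (γ t)) = s2 (γ.rangeRestrict t) := hk t
  show γ (k (D.mkQ (γ t))) = γ t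
  rw [h1]
  exact hs2 _

end Factor

variable {Ω : Type u} [Field Ω] [CharZero Ω] {Γ : Type} {n q : ℕ}

lemma lef_two (S : SpecialFibre.{u, v} Ω Γ n q) (hn : n ≤ 2) (x : S.H 2) : S.lef 2 x = 0 := by
  refine S.gr_induction (P := fun x => S.lef 2 x = 0) (map_zero _)
    (fun x y hx hy => by rw [map_add, hx, hy, add_zero]) (fun m x hx => ?_) x
  by_cases hm : m < 0
  · rw [S.gr_eq_bot 2 m (Or.inl hm), Submodule.mem_bot] at hx
    rw [hx, map_zero]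
  · have h1 := S.lef_gr 2 m x hx
    rwa [S.gr_eq_bot 2 (m + 2) (Or.inr (by push_cast; omega)), Submodule.mem_bot] at h1

section Tensor

variable (S : SpecialFibre.{u, v} Ω Γ n q) {U : Type v} [AddCommGroup U] [Module Ω U]
  (M₀ M₁ : Module.End Ω U)

/-- The restriction for the product. -/
noncomputable def rT (U : Type v) [AddCommGroup U] [Module Ω U] (a : ℕ) :
    (S.H a ⊗[Ω] U) →ₗ[Ω] (S.H (a + 1) ⊗[Ω] U) := (S.res a).rTensor U

/-- The Gysin map for the product. -/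
noncomputable def gT (U : Type v) [AddCommGroup U] [Module Ω U] (a : ℕ) :
    (S.H (a + 1) ⊗[Ω] U) →ₗ[Ω] (S.H a ⊗[Ω] U) := (S.gys a).rTensor U

lemma rT_classOp (a : ℕ) (y : S.H a ⊗[Ω] U) :
    rT S U a (classOp (S.lef a) M₀ M₁ y) = classOp (S.lef (a + 1)) M₀ M₁ (rT S U a y) := by
  have h : rT S U a ∘ₗ classOp (S.lef a) M₀ M₁ =
      classOp (S.lef (a + 1)) M₀ M₁ ∘ₗ rT S U a := by
    apply TensorProduct.ext'
    intro x u
    show S.res a x ⊗ₜ[Ω] (M₀ u) + S.res a (S.lef a x) ⊗ₜ[Ω] (M₁ u) =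
      S.res a x ⊗ₜ[Ω] (M₀ u) + S.lef (a + 1) (S.res a x) ⊗ₜ[Ω] (M₁ u)
    rw [S.res_lef]
  exact LinearMap.congr_fun h y

lemma gT_classOp (a : ℕ) (y : S.H (a + 1) ⊗[Ω] U) :
    gT S U a (classOp (S.lef (a + 1)) M₀ M₁ y) = classOp (S.lef a) M₀ M₁ (gT S U a y) := by
  have h : gT S U a ∘ₗ classOp (S.lef (a + 1)) M₀ M₁ =
      classOp (S.lef a) M₀ M₁ ∘ₗ gT S U a := by
    apply TensorProduct.ext'
    intro x u
    show S.gys a x ⊗ₜ[Ω] (M₀ u) + S.gys a (S.lef (a + 1) x) ⊗ₜ[Ω] (M₁ u) =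
      S.gys a x ⊗ₜ[Ω] (M₀ u) + S.lef a (S.gys a x) ⊗ₜ[Ω] (M₁ u)
    rw [S.gys_lef]
  exact LinearMap.congr_fun h y

variable {S} (A : DivisorClasses S) (hn : n ≤ 2)

include A hn

/-- The statement for column `-2`. -/
theorem tensor_two (y : S.H 1 ⊗[Ω] U)
    (h : classOp (S.lef 1) M₀ M₁ (gT S U 1 (rT S U 1 y)) = 0) :
    classOp (S.lef 2) M₀ M₁ (rT S U 1 y) = 0 := by
  obtain ⟨k, hk⟩ := exists_factor (S.gys 1 ∘ₗ S.res 1) (S.res 1) (fun x hx => factA A hn x hx)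
  have h1 : ∀ z : S.H 1 ⊗[Ω] U, k.rTensor U (gT S U 1 (rT S U 1 z)) = rT S U 1 z := by
    intro z
    have h2 : k.rTensor U ∘ₗ gT S U 1 ∘ₗ rT S U 1 = rT S U 1 := by
      apply TensorProduct.ext'
      intro x u
      show k (S.gys 1 (S.res 1 x)) ⊗ₜ[Ω] u = S.res 1 x ⊗ₜ[Ω] u
      rw [show k (S.gys 1 (S.res 1 x)) = S.res 1 x from hk x]
    exact LinearMap.congr_fun h2 z
  rw [← rT_classOp, ← h1, rT_classOp, gT_classOp, h, map_zero]

/-- The statement for column `-1`. Here `y'` is the cup product of `y` with the class `f_* 1`. -/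
theorem tensor_one (y y' : S.H 0 ⊗[Ω] U)
    (hy : classOp (S.lef 1) M₀ M₁ (rT S U 0 y) = rT S U 0 y')
    (h : gT S U 0 (rT S U 0 y') = 0) :
    ∃ z : S.H 2 ⊗[Ω] U, classOp (S.lef 1) M₀ M₁ (rT S U 0 y) =
      classOp (S.lef 1) M₀ M₁ (gT S U 1 z) := by
  obtain ⟨κ, η, hB⟩ := exists_B (S.res 0) (S.gys 1) (S.gys 0 ∘ₗ S.res 0)
    (fun x hx => factB A hn x hx)
  obtain ⟨σ, θ, hC1, hC2⟩ := exists_C (S.gys 1) (S.lef 1) (S.res 1)
    (fun v hv t ht => factC A hn v hv t ht)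
  -- the relations after tensoring
  have eB : ∀ z : S.H 0 ⊗[Ω] U, rT S U 0 z =
      gT S U 1 (κ.rTensor U z) + η.rTensor U (gT S U 0 (rT S U 0 z)) := by
    intro z
    have h2 : rT S U 0 = gT S U 1 ∘ₗ κ.rTensor U + η.rTensor U ∘ₗ gT S U 0 ∘ₗ rT S U 0 := by
      apply TensorProduct.ext'
      intro x u
      show S.res 0 x ⊗ₜ[Ω] u = S.gys 1 (κ x) ⊗ₜ[Ω] u + η (S.gys 0 (S.res 0 x)) ⊗ₜ[Ω] u
      rw [← TensorProduct.add_tmul]
      exact congrArg (fun w => w ⊗ₜ[Ω] u) (hB x)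
    exact LinearMap.congr_fun h2 z
  have eC : ∀ z : S.H 2 ⊗[Ω] U, gT S U 1 (σ.rTensor U (gT S U 1 z)) = gT S U 1 z := by
    intro z
    have h2 : gT S U 1 ∘ₗ σ.rTensor U ∘ₗ gT S U 1 = gT S U 1 := by
      apply TensorProduct.ext'
      intro x u
      show S.gys 1 (σ (S.gys 1 x)) ⊗ₜ[Ω] u = S.gys 1 x ⊗ₜ[Ω] u
      rw [hC1]
    exact LinearMap.congr_fun h2 z
  have eS : ∀ z : S.H 0 ⊗[Ω] U, σ.rTensor U (classOp (S.lef 1) M₀ M₁ (rT S U 0 z)) =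
      classOp (S.lef 2) M₀ M₁ (σ.rTensor U (rT S U 0 z)) := by
    intro z
    have h2 : σ.rTensor U ∘ₗ classOp (S.lef 1) M₀ M₁ ∘ₗ rT S U 0 =
        classOp (S.lef 2) M₀ M₁ ∘ₗ σ.rTensor U ∘ₗ rT S U 0 := by
      apply TensorProduct.ext'
      intro x u
      show σ (S.res 0 x) ⊗ₜ[Ω] (M₀ u) + σ (S.lef 1 (S.res 0 x)) ⊗ₜ[Ω] (M₁ u) =
        σ (S.res 0 x) ⊗ₜ[Ω] (M₀ u) + S.lef 2 (σ (S.res 0 x)) ⊗ₜ[Ω] (M₁ u)
      rw [hC2, S.res_res, map_zero, lef_two S hn]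
    exact LinearMap.congr_fun h2 z
  refine ⟨σ.rTensor U (rT S U 0 y), ?_⟩
  have h1 : classOp (S.lef 1) M₀ M₁ (rT S U 0 y) = gT S U 1 (κ.rTensor U y') := by
    rw [hy, eB, h, map_zero, add_zero]
  rw [h1, ← eC, ← h1, eS, gT_classOp]

end Tensor

end Pool.Agent.H849.SG
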