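import Pool.Graph.R_seed8.Y143.Basic
import Pool.Agent.H849.SG.Gram

/-!
# Curves and surfaces with strictly semistable reduction

The special fibre of a strictly semistable curve or surface: consequences of the Hodge index theorem
and of Weil's theorem.
-/

set_option autoImplicit false

namespace Pool.Agent.H849.SG

open Module Pool.Agent.Y143

universe u v

/-! ### Linear algebra -/

/-- A vector on which all the functionals vanishing on `M` vanish lies in `M`. -/
lemma mem_of_ann {Ω : Type*} [Field Ω] {V : Type*} [AddCommGroup V] [Module Ω V]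
    [Module.Finite Ω V] (B : V →ₗ[Ω] V →ₗ[Ω] Ω) (hB : ∀ x, (∀ y, B x y = 0) → x = 0)
    (M : Submodule Ω V) (w : V) (h : ∀ f, (∀ m ∈ M, B f m = 0) → B f w = 0) : w ∈ M := by
  by_contra hw
  obtain ⟨φ, hφ, hM⟩ := Submodule.exists_dual_map_eq_bot_of_notMem hw inferInstance
  have hinj : Function.Injective B := by
    rw [← LinearMap.ker_eq_bot, LinearMap.ker_eq_bot']
    intro x hx
    exact hB x fun y => by rw [hx, LinearMap.zero_apply]
  have hsurj : Function.Surjective B := by
    have h1 : finrank Ω V = finrank Ω (Module.Dual Ω V) := (Subspace.dual_finrank_eq).symm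
    exact (LinearMap.injective_iff_surjective_of_finrank_eq_finrank h1).1 hinj
  obtain ⟨f, rfl⟩ := hsurj φ
  apply hφ
  apply h
  intro m hm
  have h1 : B f m ∈ M.map (B f) := ⟨m, hm, rfl⟩
  rw [hM] at h1
  exact h1

variable {Ω : Type u} [Field Ω] [CharZero Ω] {Γ : Type} {n q : ℕ}

/-- The kernel of a homogeneous map is graded. -/
lemma ker_induction (X : SpecialFibre.{u, v} Ω Γ n q) {a : ℕ} {V : Type v} [AddCommGroup V]
    [Module Ω V] {gr' : ℤ → Submodule Ω V} (hind : iSupIndep gr') {φ : X.H a →ₗ[Ω] V} {s : ℤ}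
    (hφ : ∀ m x, x ∈ X.gr a m → φ x ∈ gr' (m + s)) {P : X.H a → Prop} (h0 : P 0)
    (hadd : ∀ x y, P x → P y → P (x + y)) (h : ∀ m x, x ∈ X.gr a m → φ x = 0 → P x)
    (x : X.H a) (hx : φ x = 0) : P x := by
  classical
  have hz : x ∈ ⨆ m, X.gr a m := by rw [X.iSup_gr]; exact Submodule.mem_top
  obtain ⟨f, hf, hfz⟩ := (Submodule.mem_iSup_iff_exists_finsupp _ _).1 hz
  have h1 : ∀ m, φ (f m) = 0 := by
    intro m
    by_cases hm : m ∈ f.support
    · have h2 : φ (f m) ∈ gr' (m + s) := hφ m _ (hf m)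
      have h3 : φ (f m) = -∑ k ∈ f.support.erase m, φ (f k) := by
        rw [eq_neg_iff_add_eq_zero, Finset.add_sum_erase _ (fun k => φ (f k)) hm, ← map_sum]
        rw [← hfz, Finsupp.sum] at hx
        exact hx
      have h4 : φ (f m) ∈ ⨆ j, ⨆ (_ : j ≠ m + s), gr' j := by
        rw [h3]
        apply Submodule.neg_mem
        apply Submodule.sum_mem
        intro k hk
        have hkm := Finset.ne_of_mem_erase hk
        exact Submodule.mem_iSup_of_mem (k + s) (Submodule.mem_iSup_of_mem (by omega)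
          (hφ k _ (hf k)))
      exact (Submodule.disjoint_def.1 (hind (m + s))) _ h2 h4
    · rw [Finsupp.notMem_support_iff.1 hm, map_zero]
  rw [← hfz, Finsupp.sum]
  exact Finset.sum_induction _ P hadd h0 (fun k _ => h k _ (hf k) (h1 k))

lemma iSupIndep_gr (X : SpecialFibre.{u, v} Ω Γ n q) (a : ℕ) : iSupIndep (X.gr a) :=
  ((DirectSum.isInternal_submodule_iff_iSupIndep_and_iSup_eq_top _).1 (X.isInternal a)).1

/-- Homogeneous lifts. -/
lemma exists_homog (X : SpecialFibre.{u, v} Ω Γ n q) {a : ℕ} {V : Type v} [AddCommGroup V]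
    [Module Ω V] {gr' : ℤ → Submodule Ω V} (hind : iSupIndep gr') {φ : X.H a →ₗ[Ω] V} {s : ℤ}
    (hφ : ∀ m x, x ∈ X.gr a m → φ x ∈ gr' (m + s)) (k : ℤ) (x : X.H a) (hx : φ x ∈ gr' (k + s)) :
    ∃ y ∈ X.gr a k, φ y = φ x := by
  classical
  have hz : x ∈ ⨆ m, X.gr a m := by rw [X.iSup_gr]; exact Submodule.mem_top
  obtain ⟨f, hf, hfz⟩ := (Submodule.mem_iSup_iff_exists_finsupp _ _).1 hz
  refine ⟨f k, hf k, ?_⟩
  rw [← sub_eq_zero]
  have h2 : φ (f k) - φ x ∈ gr' (k + s) := Submodule.sub_mem _ (hφ k _ (hf k)) hx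
  have h3 : φ (f k) - φ x = -∑ j ∈ f.support.erase k, φ (f j) := by
    by_cases hk : k ∈ f.support
    · have h4 := Finset.add_sum_erase f.support (fun j => φ (f j)) hk
      rw [← hfz, Finsupp.sum, map_sum, ← h4]
      abel
    · rw [Finset.erase_eq_of_notMem hk, ← hfz, Finsupp.sum, map_sum,
        Finsupp.notMem_support_iff.1 hk, map_zero, zero_sub]
  have h4 : φ (f k) - φ x ∈ ⨆ j, ⨆ (_ : j ≠ k + s), gr' j := by
    rw [h3]
    apply Submodule.neg_mem
    apply Submodule.sum_mem
    intro j hj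
    have hjk := Finset.ne_of_mem_erase hj
    exact Submodule.mem_iSup_of_mem (j + s) (Submodule.mem_iSup_of_mem (by omega)
      (hφ j _ (hf j)))
  exact (Submodule.disjoint_def.1 (hind (k + s))) _ h2 h4

variable {S : SpecialFibre.{u, v} Ω Γ n q} (A : DivisorClasses S)

/-- The degree form on the components. -/
noncomputable def degForm (S : SpecialFibre.{u, v} Ω Γ n q) (a : ℕ) :
    S.H a →ₗ[Ω] S.H a →ₗ[Ω] Ω := (S.pair a).compl₂ (S.lef a ^ (n - a))

lemma degForm_apply (a : ℕ) (x y : S.H a) :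
    degForm S a x y = S.pair a x ((S.lef a ^ (n - a)) y) := rfl

include A

lemma def0 (a : ℕ) : IsDef (degForm S a) (A.A0 a) where
  fg := A.fg0 a
  int x hx y hy := A.int0 a x hx y hy
  definite x hx h := by
    by_contra hne
    obtain ⟨k, hk, hxk⟩ := A.pos0 a x hx hne
    rw [degForm_apply, hxk] at h
    have : k = 0 := by exact_mod_cast h
    omega

lemma def_map (a : ℕ) : IsDef (degForm S (a + 1)) ((A.A0 a).map (S.res a).toAddMonoidHom) := by
  apply (def0 A (a + 1)).mono
  rintro _ ⟨x, hx, rfl⟩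
  exact A.res_A0 a x hx

omit A in
lemma res_pow' (a s : ℕ) (x : S.H a) :
    S.res a ((S.lef a ^ s) x) = (S.lef (a + 1) ^ s) (S.res a x) := by
  induction s with
  | zero => rfl
  | succ s ih => rw [pow_succ', Module.End.mul_apply, S.res_lef, ih, pow_succ',
      Module.End.mul_apply]

/-- In degree `0` the restriction of `x` vanishes if `gys (res x) = 0`. -/
lemma res_eq_zero_of (a : ℕ) {x : S.H a} (hx : x ∈ S.gr a 0) (h : S.gys a (S.res a x) = 0) :
    S.res a x = 0 := by
  apply (def_map A a).eq_zero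
  · have h1 : S.res a x ∈ (Submodule.span Ω (A.A0 a : Set (S.H a))).map (S.res a) :=
      ⟨x, A.span_A0 a hx, rfl⟩
    rw [Submodule.map_span] at h1
    exact h1
  · rintro _ ⟨y, hy, rfl⟩
    show degForm S (a + 1) (S.res a x) (S.res a y) = 0
    rw [degForm_apply, ← res_pow', ← S.pair_gys, h, map_zero, LinearMap.zero_apply]

omit A in
/-- Only the classes of degree `0` on the double curves matter for `L` and the restriction. -/
lemma exists_deg0 (hn : n ≤ 2) (v : S.H 1) :
    ∃ w ∈ S.gr 1 0, S.lef 1 v = S.lef 1 w ∧ S.res 1 v = S.res 1 w := by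
  refine S.gr_induction (P := fun v => ∃ w ∈ S.gr 1 0, S.lef 1 v = S.lef 1 w ∧
    S.res 1 v = S.res 1 w) ⟨0, Submodule.zero_mem _, rfl, rfl⟩ ?_ ?_ v
  · rintro x y ⟨w, hw, h1, h2⟩ ⟨w', hw', h1', h2'⟩
    exact ⟨w + w', Submodule.add_mem _ hw hw', by rw [map_add, map_add, h1, h1'],
      by rw [map_add, map_add, h2, h2']⟩
  · intro m x hx
    by_cases hm : m = 0
    · subst hm
      exact ⟨x, hx, rfl, rfl⟩
    · refine ⟨0, Submodule.zero_mem _, ?_, ?_⟩
      · rcases lt_or_gt_of_ne hm with h | h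
        · rw [S.gr_eq_bot 1 m (Or.inl h), Submodule.mem_bot] at hx
          rw [hx]
        · have h1 := S.lef_gr 1 m x hx
          rw [S.gr_eq_bot 1 (m + 2) (Or.inr (by push_cast; omega)), Submodule.mem_bot] at h1
          rw [h1, map_zero]
      · have h1 := S.res_gr 1 m x hx
        rw [S.gr_eq_bot (1 + 1) m (by push_cast; omega), Submodule.mem_bot] at h1
        rw [h1, map_zero]

/-- **Fact A.** The Gysin map is injective on the image of the restriction to the points. -/
theorem factA (hn : n ≤ 2) (x : S.H 1) (h : S.gys 1 (S.res 1 x) = 0) : S.res 1 x = 0 := by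
  obtain ⟨w, hw, -, h2⟩ := exists_deg0 hn x
  rw [h2] at h ⊢
  exact res_eq_zero_of A 1 hw h

/-- The classes of degree `0` restricting to `0` are spanned by integral ones. -/
lemma mem_span_ker {v : S.H 1} (hv : v ∈ S.gr 1 0) (h : S.res 1 v = 0) :
    v ∈ Submodule.span Ω (kerIn (A.A0 1) (S.res 1) : Set (S.H 1)) :=
  (def0 A 2).flat (fun x hx => A.res_A0 1 x hx) (A.span_A0 1 hv) h

/-- **Fact C.** The image of the Gysin map meets `L (ker res)` in `0`. -/
theorem factC (hn : n ≤ 2) (v : S.H 1) (h : S.res 1 v = 0) (t : S.H 2)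
    (ht : S.lef 1 v = S.gys 1 t) : S.lef 1 v = 0 := by
  obtain ⟨w, hw, h1, h2⟩ := exists_deg0 hn v
  rw [h1] at ht ⊢
  rw [h2] at h
  by_cases h2n : n = 2
  · subst h2n
    have h3 : w = 0 := by
      apply ((def0 A 1).mono (B := kerIn (A.A0 1) (S.res 1)) inf_le_left).eq_zero
        (mem_span_ker A hw h)
      intro a ha
      rw [degForm_apply, show 2 - 1 = 1 from rfl, pow_one, ← S.lef_pair, ht, S.pair_gys,
        (mem_kerIn.1 ha).2, map_zero]
    rw [h3, map_zero]
  · have h3 := S.lef_gr 1 0 w hw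
    rw [S.gr_eq_bot 1 (0 + 2) (Or.inr (by push_cast; omega)), Submodule.mem_bot] at h3
    exact h3

end Pool.Agent.H849.SG
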