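import Pool.Agent.H849.SG.Surf

/-!
# The image of the restriction to the double curves
-/

set_option autoImplicit false

namespace Pool.Agent.H849.SG

open Module Pool.Agent.Y143

universe u v

variable {Ω : Type u} [Field Ω] [CharZero Ω] {Γ : Type} {q : ℕ}

section Two

variable {S : SpecialFibre.{u, v} Ω Γ 2 q} (A : DivisorClasses S)

/-- The span of the classes of degree `0` on the double curves restricting to `0`. -/
noncomputable def kerSpan : Submodule Ω (S.H 1) :=
  Submodule.span Ω (kerIn (A.A0 1) (S.res 1) : Set (S.H 1))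

lemma kerSpan_gr {u : S.H 1} (hu : u ∈ kerSpan A) : u ∈ S.gr 1 0 := by
  have h : kerSpan A ≤ S.gr 1 0 := by
    unfold kerSpan
    rw [Submodule.span_le]
    intro a ha
    exact A.A0_le 1 a (mem_kerIn.1 ha).1
  exact h hu

lemma kerSpan_res {u : S.H 1} (hu : u ∈ kerSpan A) : S.res 1 u = 0 := by
  have h : kerSpan A ≤ LinearMap.ker (S.res 1) := by
    unfold kerSpan
    rw [Submodule.span_le]
    intro a ha
    exact (mem_kerIn.1 ha).2
  exact h hu

/-- Decomposition of the classes of degree `2` on the double curves. -/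
lemma exists_dec {w : S.H 1} (hw : w ∈ S.gr 1 2) :
    ∃ u ∈ kerSpan A, ∃ s, w = S.lef 1 u + S.gys 1 s := by
  have h1 : w ∈ (kerSpan A).map (S.lef 1) ⊔ LinearMap.range (S.gys 1) := by
    apply mem_of_ann (S.pair 1) (S.pair_nondeg 1)
    intro f hf
    -- the component of degree `0` of `f`
    have h2 : ∃ f0 ∈ S.gr 1 0, (∀ w ∈ S.gr 1 2, S.pair 1 f w = S.pair 1 f0 w) ∧
        S.res 1 f = S.res 1 f0 := by
      refine S.gr_induction (P := fun f => ∃ f0 ∈ S.gr 1 0,
        (∀ w ∈ S.gr 1 2, S.pair 1 f w = S.pair 1 f0 w) ∧ S.res 1 f = S.res 1 f0)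
        ⟨0, Submodule.zero_mem _, fun _ _ => rfl, rfl⟩ ?_ ?_ f
      · rintro x y ⟨x0, hx0, h1, h2⟩ ⟨y0, hy0, h3, h4⟩
        refine ⟨x0 + y0, Submodule.add_mem _ hx0 hy0, fun w hw => ?_, by rw [map_add, map_add,
          h2, h4]⟩
        rw [map_add, map_add, LinearMap.add_apply, LinearMap.add_apply, h1 w hw, h3 w hw]
      · intro m x hx
        by_cases hm : m = 0
        · subst hm
          exact ⟨x, hx, fun _ _ => rfl, rfl⟩
        · refine ⟨0, Submodule.zero_mem _, fun w hw => ?_, ?_⟩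
          · rw [map_zero, LinearMap.zero_apply]
            exact S.pair_gr 1 m 2 x w hx hw (by push_cast; omega)
          · have h1 := S.res_gr 1 m x hx
            rw [S.gr_eq_bot (1 + 1) m (by push_cast; omega), Submodule.mem_bot] at h1
            rw [h1, map_zero]
    obtain ⟨f0, hf0, h3, h4⟩ := h2
    have h5 : S.res 1 f = 0 := by
      apply S.pair_nondeg
      intro s
      rw [S.pair_res]
      exact hf _ (Submodule.mem_sup_right ⟨s, rfl⟩)
    have h6 : f0 ∈ kerSpan A := mem_span_ker A hf0 (by rw [← h4, h5])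
    have h7 : f0 = 0 := by
      apply ((def0 A 1).mono (B := kerIn (A.A0 1) (S.res 1)) inf_le_left).eq_zero h6
      intro a ha
      have ha' : a ∈ kerSpan A := Submodule.subset_span ha
      rw [degForm_apply, show 2 - 1 = 1 from rfl, pow_one]
      have h8 : S.lef 1 a ∈ S.gr 1 2 := S.lef_gr 1 0 a (kerSpan_gr A ha')
      rw [← h3 _ h8]
      exact hf _ (Submodule.mem_sup_left ⟨a, ha', rfl⟩)
    rw [h3 w hw, h7, map_zero, LinearMap.zero_apply]
  obtain ⟨y, ⟨u, hu, rfl⟩, z, ⟨s, rfl⟩, h⟩ := Submodule.mem_sup.1 h1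
  exact ⟨u, hu, s, h.symm⟩

include A in
/-- **Fact B, degree 2.** -/
theorem factB_two {x : S.H 0} (hx : x ∈ S.gr 0 2) (h0 : S.gys 0 (S.res 0 x) = 0) :
    ∃ y, S.res 0 x = S.gys 1 y := by
  obtain ⟨u, hu, s, hs⟩ := exists_dec A (S.res_gr 0 2 x hx)
  refine ⟨s, ?_⟩
  have hlu : S.lef 0 (S.gys 0 u) = 0 := by
    rw [← S.gys_lef, show S.lef (0 + 1) u = S.res 0 x - S.gys 1 s by rw [hs, add_sub_cancel_right],
      map_sub, h0, S.gys_gys, sub_zero]
  -- the classes of the components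
  obtain ⟨r, e, he, hse, -⟩ := (def0 A 0).frame
  let F : S.H 1 →ₗ[Ω] (Fin r → Ω) :=
    LinearMap.pi fun j => ((S.pair 0).flip (S.lef 0 (e j))) ∘ₗ S.gys 0
  have hF : ∀ v j, F v j = S.pair 0 (S.gys 0 v) (S.lef 0 (e j)) := fun v j => rfl
  have hFu : F u = 0 := by
    funext j
    rw [hF, ← S.lef_pair, hlu, map_zero, LinearMap.zero_apply]
    rfl
  have hu' : u ∈ Submodule.span Ω (kerIn (kerIn (A.A0 1) (S.res 1)) F : Set (S.H 1)) := by
    apply (intVec_def (Ω := Ω) r).flat _ hu hFu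
    intro a ha j
    obtain ⟨k, hk⟩ := A.int1 0 _ (A.gys_A0 0 a (mem_kerIn.1 ha).1) _ (A.lef_A0 0 _ (he j))
    refine ⟨k, ?_⟩
    rw [hF, ← hk]
    rfl
  have key : ∀ a ∈ kerIn (kerIn (A.A0 1) (S.res 1)) F, S.gys 0 a = 0 := by
    intro a ha
    obtain ⟨ha1, haF⟩ := mem_kerIn.1 ha
    obtain ⟨ha0, har⟩ := mem_kerIn.1 ha1
    have hg : S.gys 0 a ∈ S.gr 0 2 := S.gys_gr 0 0 a (A.A0_le 1 a ha0)
    have hl : S.lef 0 (S.gys 0 a) = 0 := by
      apply S.pair_nondeg
      intro y
      refine S.gr_induction (P := fun y => S.pair 0 (S.lef 0 (S.gys 0 a)) y = 0) (by simp)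
        (fun x y hx hy => by rw [map_add, hx, hy, add_zero]) (fun m y hy => ?_) y
      by_cases hm : m = 0
      · subst hm
        obtain ⟨c, hc⟩ := mem_span_frame hse (A.span_A0 0 hy)
        rw [hc, map_sum]
        refine Finset.sum_eq_zero fun j _ => ?_
        have h1 := congrFun haF j
        rw [hF] at h1
        rw [map_smul, S.lef_pair, h1]
        simp
      · exact S.pair_gr 0 4 m _ _ (S.lef_gr 0 2 _ hg) hy (by push_cast; omega)
    by_contra hne
    obtain ⟨k, hk, hk2⟩ := A.hodge_index 0 _ (A.gys_A0 0 a ha0)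
      (by rw [show 2 - 0 - 1 = 1 from rfl, pow_one]; exact hl) hne
    rw [show 2 - 0 - 2 = 0 from rfl, pow_zero, Module.End.one_apply, S.pair_gys] at hk2
    have h3 := S.res_gys 0 a
    rw [show S.res (0 + 1) a = 0 from har, map_zero, add_zero] at h3
    rw [h3, map_zero] at hk2
    have : k = 0 := by exact_mod_cast hk2.symm
    omega
  have hu0 : u = 0 := by
    apply ((def0 A 1).mono (B := kerIn (kerIn (A.A0 1) (S.res 1)) F)
      (inf_le_left.trans inf_le_left)).eq_zero hu'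
    intro a ha
    obtain ⟨ha1, haF⟩ := mem_kerIn.1 ha
    obtain ⟨ha0, har⟩ := mem_kerIn.1 ha1
    rw [degForm_apply, show 2 - 1 = 1 from rfl, pow_one, ← S.lef_pair,
      S.pair_symm 1 0 a _ (A.A0_le 1 a ha0), zpow_zero, one_mul,
      show S.lef 1 u = S.res 0 x - S.gys 1 s by rw [hs, add_sub_cancel_right], map_sub,
      ← S.pair_gys, key a ha, map_zero, LinearMap.zero_apply, ← S.pair_res,
      show S.res 1 a = 0 from har, map_zero, LinearMap.zero_apply, sub_zero]
  rw [hs, hu0, map_zero]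
  exact zero_add (S.gys 1 s)

include A in
/-- **Fact B** for surfaces. -/
theorem factB_surf (x : S.H 0) (h0 : S.gys 0 (S.res 0 x) = 0) : ∃ y, S.res 0 x = S.gys 1 y := by
  refine ker_induction S (iSupIndep_gr S 0) (φ := S.gys 0 ∘ₗ S.res 0) (s := 2)
    (fun m x hx => S.gys_gr 0 m _ (S.res_gr 0 m x hx)) (P := fun x => ∃ y, S.res 0 x = S.gys 1 y)
    ⟨0, by rw [map_zero, map_zero]⟩ ?_ ?_ x h0
  · rintro x y ⟨a, ha⟩ ⟨b, hb⟩
    exact ⟨a + b, by rw [map_add, map_add, ha, hb]⟩
  · intro m x hx hx0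
    have hx0' : S.gys 0 (S.res 0 x) = 0 := hx0
    by_cases hm0 : m = 0
    · subst hm0
      exact ⟨0, by rw [res_eq_zero_of A 0 hx hx0', map_zero]⟩
    by_cases hm1 : m = 1
    · subst hm1
      refine ⟨0, ?_⟩
      rw [map_zero]
      apply A.weil_one 0 x hx
      intro y hy
      rw [show 2 - 0 - 2 = 0 from rfl, pow_zero, Module.End.one_apply, ← S.pair_gys, hx0',
        map_zero, LinearMap.zero_apply]
    by_cases hm2 : m = 2
    · subst hm2
      exact factB_two A hx hx0'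
    · refine ⟨0, ?_⟩
      have h1 := S.res_gr 0 m x hx
      rw [S.gr_eq_bot (0 + 1) m (by push_cast; omega), Submodule.mem_bot] at h1
      rw [h1, map_zero]

end Two

/-- **Fact B** for curves and points. -/
theorem factB_curve {n : ℕ} {S : SpecialFibre.{u, v} Ω Γ n q} (A : DivisorClasses S) (hn : n ≤ 1)
    (x : S.H 0) (h0 : S.gys 0 (S.res 0 x) = 0) : ∃ y, S.res 0 x = S.gys 1 y := by
  refine ker_induction S (iSupIndep_gr S 0) (φ := S.gys 0 ∘ₗ S.res 0) (s := 2)
    (fun m x hx => S.gys_gr 0 m _ (S.res_gr 0 m x hx)) (P := fun x => ∃ y, S.res 0 x = S.gys 1 y)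
    ⟨0, by rw [map_zero, map_zero]⟩ ?_ ?_ x h0
  · rintro x y ⟨a, ha⟩ ⟨b, hb⟩
    exact ⟨a + b, by rw [map_add, map_add, ha, hb]⟩
  · intro m x hx hx0
    have hx0' : S.gys 0 (S.res 0 x) = 0 := hx0
    refine ⟨0, ?_⟩
    rw [map_zero]
    by_cases hm0 : m = 0
    · subst hm0
      exact res_eq_zero_of A 0 hx hx0'
    · have h1 := S.res_gr 0 m x hx
      rwa [S.gr_eq_bot (0 + 1) m (by push_cast; omega), Submodule.mem_bot] at h1

/-- **Fact B.** If `gys (res x) = 0` then the restriction of `x` to the double curves is in the image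
of the Gysin map. -/
theorem factB {n : ℕ} {S : SpecialFibre.{u, v} Ω Γ n q} (A : DivisorClasses S) (hn : n ≤ 2)
    (x : S.H 0) (h0 : S.gys 0 (S.res 0 x) = 0) : ∃ y, S.res 0 x = S.gys 1 y := by
  by_cases h : n ≤ 1
  · exact factB_curve A h x h0
  · obtain rfl : n = 2 := by omega
    exact factB_surf A x h0

end Pool.Agent.H849.SG
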